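import Pool.Agent.H857.MX.Master
import Pool.Agent.H857.MX.Good
import Pool.Graph.R_pool_sql_team_seeded_2aa45f1a.Q64.L.Thms

/-!
# MP_81b968_ag: the Tate conjecture for the higher Chow groups of `A × X`, for arbitrary smooth
varieties `X` over finite fields, proper or not, and all abelian varieties `A` but a set of
isogeny classes of the exact order of magnitude of its size

Let `g i` (`i` in a finite set `I`) be positive integers. For a prime power `q = p ^ a` let
`families g p a` be the finite set of the families `f i` of Weil polynomials of degrees `2 g i`
relative to `q` with integral Newton polygons. It contains the families of the characteristic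
polynomials of the Frobenius endomorphisms of abelian varieties `A i` of dimensions `g i` over the
field with `q` elements (Weil), which determine the `A i` up to isogeny (Tate). It has about `q ^
(∑ g i (g i + 1) / 4)` elements.

Let the `ρ k` be `r` Weil numbers of weights less than `c` with slopes in `(1 / D) ℤ`, for
instance the eigenvalues of Frobenius on the `ℓ`-adic cohomology of a variety over the field with
`q` elements. The family `f` is exceptional if there is a multiplicative relation between roots of
the `f i`, the numbers `ρ k` and `q`, up to roots of unity, which does not come from the pairs of
conjugate roots `z`, `q / z`.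

1. The proportion of the exceptional families among all the families is of the exact order of
magnitude `∑ q ^ (- δ (g i) / 2)`, where `δ (g) = g` for `g ≠ 2` and `δ (2) = 1`: it is at most
`C` times, and at least `1 / C` times this sum. The constant `C` depends only on the `g i`, on
`r`, `c` and `D` - not on `p`, `q` and the `ρ k`.

2. Let `f` be a family which is not exceptional, and let `A` be an abelian variety over the field
with `Q = q ^ s` elements, `s > 0`, which is isogenous to a product of powers of abelian varieties
`A i` with characteristic polynomials `f i`. Let `X` be **any** smooth variety, proper or not,
over the field with `Q` elements such that the eigenvalues of Frobenius on the `ℓ`-adic cohomology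
of `X` lie, up to powers, in the group generated by the `ρ k` and `q` (`Generated`).

**For all `i`, `j` the map `c^(i, j)` of `A × X` is onto the Galois invariants if and only if the
maps `c^(i - 2 k, j - k)` of `X`, `0 ≤ k ≤ dim A`, are so.** The Galois invariants satisfy a
Kunneth formula, with finitely many products of divisor classes on `A`. No case of the conjectures
is assumed, and nothing is assumed on the higher Chow groups of `X`.

What is used of `A` are known theorems (`IsAbelian`): `H(A)` is generated by `H^1`, Frobenius is
diagonalizable on `H^1` (Weil), the theorem of Tate on divisors, and the nilpotence of
homologically trivial correspondences (Kimura). The theories relative to `X` are modelled by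
`RelData`, with the formal properties in `IsTheory`: degrees, products with classes on `A`,
push-forward to `X`, the projection formula, the operation of the correspondences of `A` and of
the Frobenius endomorphism of `X`. The group of bidegree `(i, j)` is `H^i(X, j)`, resp. `H^i(A ×
X, j)`; the Frobenius endomorphism of `A × X` is the multiplication by `Q ^ j` on motivic
cohomology (`IsPure`) and on the Galois invariants of the `ℓ`-adic cohomology groups (`InvN`,
`InvM`); the generalized eigenvectors are in `GenN`, `GenM`.

The framework and the geometric part (`Q64.L.tateHigherReduces`) are those of the theorem
`AllCMTypesTimesOpen` of the library, which bounds the number of the exceptional slope types of CM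
fields and asks that the eigenvalues of the other factor are unrelated to these fields. In other
theorems of the library the exceptional set of isogeny classes has a proportion `O (q ^ (-1 / 6)
log q)`, without a lower bound, for other factors with eigenvalues in a group of small rank over a
fixed number field. New here are the arbitrary eigenvalues, the uniformity in `p` and the exact
order of magnitude of the exceptional set. The count is that of MP_557161_ag: the slopes bound the
exponents of the relations, up to proportionality, and each relation is a nontrivial algebraic
equation for the coefficients on almost all pencils of Weil polynomials, by the expansions of the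
roots at infinity.
-/

set_option autoImplicit false

namespace Pool.Agent.Results.MP_81b968_ag.SharpExceptionalSet

open Pool.Agent.H857.SX Pool.Agent.H857.MX Pool.Agent.Q64.L

/-- **The exceptional set.** -/
theorem result {I : Type} [Fintype I] (g : I → ℕ) (hg : ∀ i, 0 < g i) (r D c : ℕ) (hD : 0 < D) :
    ∃ C : ℝ, 0 < C ∧ ∀ (p : ℕ) [Fact p.Prime] (a : ℕ), 0 < a →
      ((families g p a).Finite ∧
        ∏ i, Real.sqrt ((p : ℝ) ^ a) ^ (g i * (g i + 1) / 2) ≤ C * (families g p a).ncard ∧
        (families g p a).ncard ≤ C * ∏ i, Real.sqrt ((p : ℝ) ^ a) ^ (g i * (g i + 1) / 2)) ∧
      ∀ (w : Fin r → ℕ) (ρ : Fin r → ℂ), (∀ k, w k < c ∧ IsWeilNumber p a D (w k) (ρ k)) →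
        (({f ∈ families g p a | ¬ Independent f (p ^ a) ρ}.ncard : ℝ) ≤
            C * (rate g ((p : ℝ) ^ a) * (families g p a).ncard) ∧
          rate g ((p : ℝ) ^ a) * (families g p a).ncard ≤
            C * {f ∈ families g p a | ¬ Independent f (p ^ a) ρ}.ncard) ∧
        ∀ f ∈ families g p a, Independent f (p ^ a) ρ →
          TateHigherReduces (RootsIn (Generated (p ^ a) ρ)) (p ^ a) f :=
  Pool.Agent.H857.MX.master g hg r D c hD (fun q f R => TateHigherReduces (RootsIn R) q f)
    fun _ _ _ hq _ h0 hR => tateHigherReduces hq (good_of_noRel hR h0)

end Pool.Agent.Results.MP_81b968_ag.SharpExceptionalSet
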